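import Pool.Agent.Lib_helper98.RC.Ker
import Pool.Agent.Lib_helper95.RC.Int

/-!
# Block T2
-/

set_option autoImplicit false
set_option linter.unusedSectionVars false

open scoped BigOperators ComplexOrder Kronecker MatrixOrder Topology
open MeasureTheory Set Matrix Filter

namespace Pool.Agent.RC

variable {ι κ : Type} [Fintype ι] [DecidableEq ι] [Fintype κ] [DecidableEq κ]

namespace T2B

open KER

/-- the scalar kernel of `j2` -/
noncomputable def kk (x y r : ℝ) : ℝ :=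
  2 * (x ^ 2 * ((x + r) ^ 3)⁻¹ * (y + r)⁻¹) + x * y * ((x + r) ^ 2)⁻¹ * ((y + r) ^ 2)⁻¹

theorem kk_hasDeriv {x y r : ℝ} (hx : 0 < x) (hy : 0 < y) (hr : 0 < r) {t : ℝ}
    (ht : t ∈ Icc (0 : ℝ) 1) :
    HasDerivAt (fun t : ℝ =>
      (x ^ 2 * (t / (t * (x + r) + (1 - t) * (y + r))) ^ 3 +
        x * y * (3 * (t / (t * (x + r) + (1 - t) * (y + r))) ^ 2 -
          2 * (x + r) * (t / (t * (x + r) + (1 - t) * (y + r))) ^ 3) / (y + r) +
        y ^ 2 * (3 * (t / (t * (x + r) + (1 - t) * (y + r))) -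
          3 * (x + r) * (t / (t * (x + r) + (1 - t) * (y + r))) ^ 2 +
          (x + r) ^ 2 * (t / (t * (x + r) + (1 - t) * (y + r))) ^ 3) / (y + r) ^ 2) / (y + r))
      (3 * (t * x + (1 - t) * y) ^ 2 * ((t * x + (1 - t) * y + r) ^ 4)⁻¹) t := by
  have hX : 0 < x + r := by linarith
  have hY : 0 < y + r := by linarith
  have hL := comb_pos hX hY ht
  set s : ℝ → ℝ := fun t => t / (t * (x + r) + (1 - t) * (y + r)) with hs
  have h1 : HasDerivAt (fun t : ℝ => t * (x + r)) (x + r) t := by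
    simpa using (hasDerivAt_id t).mul_const (x + r)
  have h3 : HasDerivAt (fun t : ℝ => (1 - t) * (y + r)) (-(y + r)) t := by
    simpa using ((hasDerivAt_const t (1 : ℝ)).sub (hasDerivAt_id t)).mul_const (y + r)
  have h2 := h1.add h3
  have h4 := (hasDerivAt_id t).div h2 hL.ne'
  have hsd : HasDerivAt s ((y + r) / (t * (x + r) + (1 - t) * (y + r)) ^ 2) t := by
    have e : (1 * (t * (x + r) + (1 - t) * (y + r)) - t * (x + r + -(y + r))) /
        (t * (x + r) + (1 - t) * (y + r)) ^ 2 =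
        (y + r) / (t * (x + r) + (1 - t) * (y + r)) ^ 2 := by
      congr 1
      ring
    rw [← e]
    exact h4
  have hp2 := hsd.pow 2
  have hp3 := hsd.pow 3
  have d1 := hp3.const_mul (x ^ 2)
  have d2 := (((hp2.const_mul 3).sub (hp3.const_mul (2 * (x + r)))).const_mul (x * y)).div_const
    (y + r)
  have d3 := ((((hsd.const_mul 3).sub (hp2.const_mul (3 * (x + r)))).add
    (hp3.const_mul ((x + r) ^ 2))).const_mul (y ^ 2)).div_const ((y + r) ^ 2)
  have d := ((d1.add d2).add d3).div_const (y + r)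
  refine HasDerivAt.congr_deriv d ?_
  have e1 : t * x + (1 - t) * y + r = t * (x + r) + (1 - t) * (y + r) := by ring
  rw [e1]
  simp only [hs]
  have hL0 : t * (x + r) + (1 - t) * (y + r) ≠ 0 := hL.ne'
  have hY0 : y + r ≠ 0 := hY.ne'
  push_cast
  field_simp
  ring

theorem kk_int {x y r : ℝ} (hx : 0 < x) (hy : 0 < y) (hr : 0 < r) :
    (kk x y r + kk y x r) / 2 =
      ∫ t in (0 : ℝ)..1, 3 * (t * x + (1 - t) * y) ^ 2 * ((t * x + (1 - t) * y + r) ^ 4)⁻¹ := by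
  have hu : uIcc (0 : ℝ) 1 = Icc 0 1 := uIcc_of_le zero_le_one
  have hcont : ContinuousOn (fun t : ℝ => 3 * (t * x + (1 - t) * y) ^ 2 *
      ((t * x + (1 - t) * y + r) ^ 4)⁻¹) (Icc 0 1) := by
    refine ContinuousOn.mul (by fun_prop) (ContinuousOn.inv₀ (by fun_prop) fun t ht => ?_)
    have := comb_pos hx hy ht
    positivity
  rw [intervalIntegral.integral_eq_sub_of_hasDerivAt
    (fun t ht => kk_hasDeriv hx hy hr (hu ▸ ht)) ((hu ▸ hcont).intervalIntegrable)]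
  have hX : x + r ≠ 0 := by positivity
  have hY : y + r ≠ 0 := by positivity
  unfold kk
  simp only [one_mul, sub_self, zero_mul, add_zero, zero_div, sub_zero]
  field_simp
  ring

theorem kk_nonneg {x y r : ℝ} (hx : 0 < x) (hy : 0 < y) (hr : 0 < r) : 0 ≤ kk x y r := by
  unfold kk
  positivity

theorem kk_le {x y r m M : ℝ} (hx : 0 < x) (hy : 0 < y) (hr : 0 < r) (hm : 0 < m) (hmx : m ≤ x)
    (hmy : m ≤ y) (hxM : x ≤ M) (hyM : y ≤ M) : kk x y r ≤ 3 * M ^ 2 * ((m + r) ^ 4)⁻¹ := by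
  unfold kk
  have hX : 0 < x + r := by linarith
  have hY : 0 < y + r := by linarith
  have hmr : 0 < m + r := by linarith
  have i1 : (x + r)⁻¹ ≤ (m + r)⁻¹ := inv_anti₀ hmr (by linarith)
  have i2 : (y + r)⁻¹ ≤ (m + r)⁻¹ := inv_anti₀ hmr (by linarith)
  have j1 : 0 ≤ (x + r)⁻¹ := by positivity
  have j2' : 0 ≤ (y + r)⁻¹ := by positivity
  have hM : 0 < M := by linarith
  have a1 : x ^ 2 * ((x + r) ^ 3)⁻¹ * (y + r)⁻¹ ≤ M ^ 2 * ((m + r) ^ 4)⁻¹ := by
    have e : M ^ 2 * ((m + r) ^ 4)⁻¹ = M ^ 2 * ((m + r)⁻¹) ^ 3 * (m + r)⁻¹ := by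
      rw [inv_pow]; field_simp
    rw [e, ← inv_pow]
    gcongr
  have a2 : x * y * ((x + r) ^ 2)⁻¹ * ((y + r) ^ 2)⁻¹ ≤ M ^ 2 * ((m + r) ^ 4)⁻¹ := by
    have e : M ^ 2 * ((m + r) ^ 4)⁻¹ = M * M * ((m + r)⁻¹) ^ 2 * ((m + r)⁻¹) ^ 2 := by
      rw [inv_pow]; field_simp
    rw [e, ← inv_pow, ← inv_pow]
    gcongr
  linarith

theorem kk_continuousOn {x y : ℝ} (hx : 0 < x) (hy : 0 < y) :
    ContinuousOn (fun r => kk x y r) (Ioi 0) := by
  unfold kk
  have h1 : ∀ n : ℕ, ContinuousOn (fun r : ℝ => ((x + r) ^ n)⁻¹) (Ioi 0) := fun n =>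
    ContinuousOn.inv₀ (by fun_prop) fun r hr => by
      have : (0 : ℝ) < r := hr
      positivity
  have h2 : ∀ n : ℕ, ContinuousOn (fun r : ℝ => ((y + r) ^ n)⁻¹) (Ioi 0) := fun n =>
    ContinuousOn.inv₀ (by fun_prop) fun r hr => by
      have : (0 : ℝ) < r := hr
      positivity
  have h3 : ContinuousOn (fun r : ℝ => (y + r)⁻¹) (Ioi 0) := by
    simpa using h2 1
  exact (continuousOn_const.mul ((continuousOn_const.mul (h1 3)).mul h3)).add
    ((continuousOn_const.mul (h1 2)).mul (h2 2))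

theorem kk_integrable {α x y : ℝ} (h0 : 0 < α) (h4 : α < 4) (hx : 0 < x) (hy : 0 < y) :
    IntegrableOn (fun r => r ^ (α - 1) * kk x y r) (Ioi 0) := by
  have hm : 0 < min x y := lt_min hx hy
  have h1 := (integrableOn_scalar α (min x y) 4 h0 (by exact_mod_cast h4) hm).const_mul
    (3 * (max x y) ^ 2)
  refine Integrable.mono' h1 ?_ ?_
  · apply ContinuousOn.aestronglyMeasurable _ measurableSet_Ioi
    exact (ContinuousOn.rpow_const continuousOn_id (fun r hr => Or.inl (ne_of_gt hr))).mul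
      (kk_continuousOn hx hy)
  · refine ae_restrict_of_forall_mem measurableSet_Ioi fun r hr => ?_
    have hr0 : (0 : ℝ) < r := hr
    rw [Real.norm_of_nonneg (mul_nonneg (by positivity) (kk_nonneg hx hy hr0))]
    calc r ^ (α - 1) * kk x y r
        ≤ r ^ (α - 1) * (3 * (max x y) ^ 2 * ((min x y + r) ^ 4)⁻¹) :=
          mul_le_mul_of_nonneg_left (kk_le hx hy hr0 hm (min_le_left _ _) (min_le_right _ _)
            (le_max_left _ _) (le_max_right _ _)) (by positivity)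
      _ = _ := by ring

theorem scalar_J {α x y : ℝ} (h0 : 0 < α) (h4 : α < 4) (hx : 0 < x) (hy : 0 < y) :
    ∫ r in Ioi (0 : ℝ), r ^ (α - 1) * ((kk x y r + kk y x r) / 2) = 3 * bet α 4 * hk α x y := by
  have hm : 0 < min x y := lt_min hx hy
  set F : ℝ → ℝ → ℝ := fun r t => r ^ (α - 1) * (3 * (t * x + (1 - t) * y) ^ 2 *
    ((t * x + (1 - t) * y + r) ^ 4)⁻¹) with hF
  have hpos : ∀ t ∈ Ioc (0 : ℝ) 1, 0 < t * x + (1 - t) * y := fun t ht =>
    comb_pos hx hy ⟨ht.1.le, ht.2⟩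
  have hlow : ∀ t ∈ Ioc (0 : ℝ) 1, min x y ≤ t * x + (1 - t) * y := fun t ht => by
    have e1 := mul_le_mul_of_nonneg_left (min_le_left x y) ht.1.le
    have e2 := mul_le_mul_of_nonneg_left (min_le_right x y) (by linarith [ht.2] : 0 ≤ 1 - t)
    linarith
  have hupp : ∀ t ∈ Ioc (0 : ℝ) 1, t * x + (1 - t) * y ≤ max x y := fun t ht => by
    have e1 := mul_le_mul_of_nonneg_left (le_max_left x y) ht.1.le
    have e2 := mul_le_mul_of_nonneg_left (le_max_right x y) (by linarith [ht.2] : 0 ≤ 1 - t)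
    linarith
  have hint : Integrable (Function.uncurry F)
      ((volume.restrict (Ioi (0 : ℝ))).prod (volume.restrict (Ioc (0 : ℝ) 1))) := by
    have h1 := (integrableOn_scalar α (min x y) 4 h0 (by exact_mod_cast h4) hm).const_mul
      (3 * (max x y) ^ 2)
    have h2 : Integrable (fun p : ℝ × ℝ => 3 * (max x y) ^ 2 *
        (p.1 ^ (α - 1) * ((min x y + p.1) ^ 4)⁻¹))
        ((volume.restrict (Ioi (0 : ℝ))).prod (volume.restrict (Ioc (0 : ℝ) 1))) :=
      Integrable.comp_fst h1 _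
    refine Integrable.mono' h2 ?_ ?_
    · apply Measurable.aestronglyMeasurable
      simp only [hF, Function.uncurry_def]
      fun_prop
    · have a1 : ∀ᵐ p ∂((volume.restrict (Ioi (0 : ℝ))).prod (volume.restrict (Ioc (0 : ℝ) 1))),
          p.1 ∈ Ioi (0 : ℝ) :=
        Measure.quasiMeasurePreserving_fst.ae (ae_restrict_mem measurableSet_Ioi)
      have a2 : ∀ᵐ p ∂((volume.restrict (Ioi (0 : ℝ))).prod (volume.restrict (Ioc (0 : ℝ) 1))),
          p.2 ∈ Ioc (0 : ℝ) 1 :=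
        Measure.quasiMeasurePreserving_snd.ae (ae_restrict_mem measurableSet_Ioc)
      filter_upwards [a1, a2] with p hp1 hp2
      have hr0 : (0 : ℝ) < p.1 := hp1
      have hl := hpos p.2 hp2
      have hl1 := hlow p.2 hp2
      have hl2 := hupp p.2 hp2
      simp only [hF, Function.uncurry_def]
      rw [Real.norm_of_nonneg (by positivity)]
      calc p.1 ^ (α - 1) * (3 * (p.2 * x + (1 - p.2) * y) ^ 2 *
            ((p.2 * x + (1 - p.2) * y + p.1) ^ 4)⁻¹)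
          ≤ p.1 ^ (α - 1) * (3 * (max x y) ^ 2 * ((min x y + p.1) ^ 4)⁻¹) := by
            apply mul_le_mul_of_nonneg_left _ (by positivity)
            apply mul_le_mul
            · gcongr
            · apply inv_anti₀ (by positivity)
              gcongr
            · positivity
            · positivity
        _ = _ := by ring
  have hL : ∫ r in Ioi (0 : ℝ), r ^ (α - 1) * ((kk x y r + kk y x r) / 2) =
      ∫ r in Ioi (0 : ℝ), ∫ t in Ioc (0 : ℝ) 1, F r t := by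
    apply setIntegral_congr_fun measurableSet_Ioi
    intro r hr
    have hr0 : (0 : ℝ) < r := hr
    simp only [hF]
    rw [kk_int hx hy hr0, intervalIntegral.integral_of_le zero_le_one, ← integral_const_mul]
  rw [hL, integral_integral_swap hint]
  have hR : ∀ t ∈ Ioc (0 : ℝ) 1, ∫ r in Ioi (0 : ℝ), F r t =
      3 * bet α 4 * (t * x + (1 - t) * y) ^ (α - 2) := by
    intro t ht
    have hl := hpos t ht
    have e : (fun r => F r t) = fun r => 3 * (t * x + (1 - t) * y) ^ 2 *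
        (r ^ (α - 1) * ((t * x + (1 - t) * y + r) ^ 4)⁻¹) := by
      funext r; simp only [hF]; ring
    rw [e, integral_const_mul, bet_scale α _ 4 hl]
    have e2 : (t * x + (1 - t) * y) ^ (α - 2) =
        (t * x + (1 - t) * y) ^ 2 * (t * x + (1 - t) * y) ^ (α - ((4 : ℕ) : ℝ)) := by
      rw [← Real.rpow_natCast (t * x + (1 - t) * y) 2, ← Real.rpow_add hl]
      congr 1
      push_cast
      ring
    rw [e2]
    ring
  rw [setIntegral_congr_fun measurableSet_Ioc hR, integral_const_mul, hk,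
    intervalIntegral.integral_of_le zero_le_one]

/-- entries: `E i j * E j i = ‖E i j‖²` -/
theorem entry_mul {E : Matrix ι ι ℂ} (hE : E.IsHermitian) (i j : ι) :
    E i j * E j i = ((‖E i j‖ ^ 2 : ℝ) : ℂ) := by
  have h : E j i = star (E i j) := (hE.apply i j).symm ▸ by simp
  rw [h, Complex.star_def, Complex.mul_conj, Complex.normSq_eq_norm_sq]

theorem norm_symm {E : Matrix ι ι ℂ} (hE : E.IsHermitian) (i j : ι) : ‖E j i‖ = ‖E i j‖ := by
  rw [← hE.apply i j, norm_star]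

theorem j2_dg (a : ι → ℝ) (ha : ∀ i, 0 < a i) (E : Matrix ι ι ℂ) (hE : E.IsHermitian) (r : ℝ)
    (hr : 0 < r) :
    j2 (dg a) E r = ∑ i, ∑ j, ‖E i j‖ ^ 2 * kk (a i) (a j) r := by
  have hne : ∀ k, a k + r ≠ 0 := fun k => by
    have := ha k
    positivity
  unfold j2
  rw [res_dg a r hne, dg_mul_dg]
  set b : ι → ℝ := fun k => (a k + r)⁻¹ with hb
  set c : ι → ℝ := fun k => b k * a k with hc
  have e1 : (dg c * dg c * (dg b * E) * (dg b * E)).trace =
      ((∑ i, ∑ j, ‖E i j‖ ^ 2 * (c i * c i * b i * b j) : ℝ) : ℂ) := by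
    rw [trace]
    push_cast
    refine Finset.sum_congr rfl fun i _ => ?_
    rw [diag_apply, Matrix.mul_apply]
    refine Finset.sum_congr rfl fun j _ => ?_
    unfold dg
    rw [diagonal_mul_diagonal, diagonal_mul, diagonal_mul, diagonal_mul]
    have := entry_mul hE i j
    push_cast at this
    calc (c i : ℂ) * c i * ((b i : ℂ) * E i j) * ((b j : ℂ) * E j i)
        = (E i j * E j i) * (c i * c i * b i * b j) := by ring
      _ = _ := by rw [this]
  have e2 : (dg c * (dg b * E) * dg c * (dg b * E)).trace =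
      ((∑ i, ∑ j, ‖E i j‖ ^ 2 * (c i * b i * c j * b j) : ℝ) : ℂ) := by
    rw [trace]
    push_cast
    refine Finset.sum_congr rfl fun i _ => ?_
    rw [diag_apply, Matrix.mul_apply]
    refine Finset.sum_congr rfl fun j _ => ?_
    unfold dg
    rw [mul_diagonal, diagonal_mul, diagonal_mul, diagonal_mul]
    have := entry_mul hE i j
    push_cast at this
    calc (c i : ℂ) * ((b i : ℂ) * E i j) * c j * ((b j : ℂ) * E j i)
        = (E i j * E j i) * (c i * b i * c j * b j) := by ring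
      _ = _ := by rw [this]
  rw [e1, e2, Complex.ofReal_re, Complex.ofReal_re, Finset.mul_sum, ← Finset.sum_add_distrib]
  refine Finset.sum_congr rfl fun i _ => ?_
  rw [Finset.mul_sum, ← Finset.sum_add_distrib]
  refine Finset.sum_congr rfl fun j _ => ?_
  simp only [hc, hb, kk]
  have h1 := hne i
  have h2 := hne j
  field_simp

end T2B

open T2B

theorem T2_dg (α : ℝ) (h0 : 0 < α) (h4 : α < 4) (a : ι → ℝ) (ha : ∀ i, 0 < a i)
    (E : Matrix ι ι ℂ) (hE : E.IsHermitian) :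
    T2 α (dg a) E = ∑ i, ∑ j, ‖E i j‖ ^ 2 * hk α (a i) (a j) := by
  have hb := bet_pos α 4 h0 (by exact_mod_cast h4)
  have h1 : ∫ r in Ioi (0 : ℝ), r ^ (α - 1) * j2 (dg a) E r =
      ∑ i, ∑ j, ‖E i j‖ ^ 2 * ∫ r in Ioi (0 : ℝ), r ^ (α - 1) * kk (a i) (a j) r := by
    have e : ∫ r in Ioi (0 : ℝ), r ^ (α - 1) * j2 (dg a) E r =
        ∫ r in Ioi (0 : ℝ), ∑ i, ∑ j, ‖E i j‖ ^ 2 * (r ^ (α - 1) * kk (a i) (a j) r) := by
      apply setIntegral_congr_fun measurableSet_Ioi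
      intro r hr
      show r ^ (α - 1) * j2 (dg a) E r = _
      rw [j2_dg a ha E hE r hr, Finset.mul_sum]
      refine Finset.sum_congr rfl fun i _ => ?_
      rw [Finset.mul_sum]
      refine Finset.sum_congr rfl fun j _ => ?_
      ring
    have hi : ∀ i j, IntegrableOn (fun r => ‖E i j‖ ^ 2 * (r ^ (α - 1) * kk (a i) (a j) r))
        (Ioi 0) := fun i j => (kk_integrable h0 h4 (ha i) (ha j)).const_mul _
    rw [e, integral_finsetSum _ fun i _ => integrable_finsetSum _ fun j _ => hi i j]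
    refine Finset.sum_congr rfl fun i _ => ?_
    rw [integral_finsetSum _ fun j _ => hi i j]
    refine Finset.sum_congr rfl fun j _ => ?_
    rw [integral_const_mul]
  have h2 : ∑ i, ∑ j, ‖E i j‖ ^ 2 * ∫ r in Ioi (0 : ℝ), r ^ (α - 1) * kk (a i) (a j) r =
      ∑ i, ∑ j, ‖E i j‖ ^ 2 * (3 * bet α 4 * hk α (a i) (a j)) := by
    have hsw : ∑ i, ∑ j, ‖E i j‖ ^ 2 * ∫ r in Ioi (0 : ℝ), r ^ (α - 1) * kk (a i) (a j) r =
        ∑ i, ∑ j, ‖E i j‖ ^ 2 * ∫ r in Ioi (0 : ℝ), r ^ (α - 1) * kk (a j) (a i) r := by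
      rw [Finset.sum_comm]
      refine Finset.sum_congr rfl fun i _ => Finset.sum_congr rfl fun j _ => ?_
      rw [norm_symm hE i j]
    have h3 : ∑ i, ∑ j, ‖E i j‖ ^ 2 * (3 * bet α 4 * hk α (a i) (a j)) =
        ((∑ i, ∑ j, ‖E i j‖ ^ 2 * (∫ r in Ioi (0 : ℝ), r ^ (α - 1) * kk (a i) (a j) r)) +
          ∑ i, ∑ j, ‖E i j‖ ^ 2 * (∫ r in Ioi (0 : ℝ), r ^ (α - 1) * kk (a j) (a i) r)) / 2 := by
      rw [← Finset.sum_add_distrib, Finset.sum_div]
      refine Finset.sum_congr rfl fun i _ => ?_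
      rw [← Finset.sum_add_distrib, Finset.sum_div]
      refine Finset.sum_congr rfl fun j _ => ?_
      rw [← scalar_J h0 h4 (ha i) (ha j)]
      have e : (fun r : ℝ => r ^ (α - 1) * ((kk (a i) (a j) r + kk (a j) (a i) r) / 2)) =
          fun r => (1 / 2) * (r ^ (α - 1) * kk (a i) (a j) r) +
            (1 / 2) * (r ^ (α - 1) * kk (a j) (a i) r) := by
        funext r; ring
      rw [e, integral_add ((kk_integrable h0 h4 (ha i) (ha j)).const_mul _)
        ((kk_integrable h0 h4 (ha j) (ha i)).const_mul _), integral_const_mul,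
        integral_const_mul]
      ring
    rw [h3, ← hsw]
    ring
  unfold T2
  rw [h1, h2, div_eq_iff (by positivity), Finset.sum_mul]
  refine Finset.sum_congr rfl fun i _ => ?_
  rw [Finset.sum_mul]
  refine Finset.sum_congr rfl fun j _ => ?_
  ring

theorem j2_conj (U A D : Matrix ι ι ℂ) (hU : star U * U = 1) (hU' : U * star U = 1) (r : ℝ) :
    j2 (U * A * star U) (U * D * star U) r = j2 A D r := by
  unfold j2
  rw [res_conj U A hU hU']
  have m : ∀ X Y : Matrix ι ι ℂ, U * X * star U * (U * Y * star U) = U * (X * Y) * star U := by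
    intro X Y
    calc U * X * star U * (U * Y * star U) = U * X * (star U * U) * Y * star U := by
          simp only [Matrix.mul_assoc]
      _ = _ := by rw [hU]; simp only [Matrix.mul_assoc, Matrix.one_mul]
  have t : ∀ X : Matrix ι ι ℂ, (U * X * star U).trace = X.trace := fun X => by
    rw [Matrix.trace_mul_cycle, hU, Matrix.one_mul]
  simp only [m, t]

theorem T2_conj (α : ℝ) (U A D : Matrix ι ι ℂ) (hU : star U * U = 1) (hU' : U * star U = 1) :
    T2 α (U * A * star U) (U * D * star U) = T2 α A D := by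
  unfold T2
  simp only [j2_conj U A D hU hU']

/-- reduction of a Kronecker pair to the diagonal form -/
theorem T2_kron_dg (α : ℝ) (h0 : 0 < α) (h4 : α < 4) (a : ι → ℝ) (ha : ∀ i, 0 < a i)
    (b : κ → ℝ) (hb : ∀ k, 0 < b k) (E : Matrix ι ι ℂ) (hE : E.IsHermitian) (F : Matrix κ κ ℂ)
    (hF : F.IsHermitian) :
    T2 α (dg a ⊗ₖ dg b) (E ⊗ₖ F) = ∑ i, ∑ j, ‖E i j‖ ^ 2 * ∑ k, ∑ l, ‖F k l‖ ^ 2 *
      ((hk α (a i * b k) (a j * b l) + hk α (a i * b l) (a j * b k)) / 2) := by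
  have hdg : dg a ⊗ₖ dg b = dg fun p : ι × κ => a p.1 * b p.2 := by
    unfold dg
    rw [diagonal_kronecker_diagonal]
    congr 1
    funext p
    push_cast
    rfl
  have hH : (E ⊗ₖ F).IsHermitian := by
    rw [Matrix.IsHermitian, conjTranspose_kronecker, hE.eq, hF.eq]
  rw [hdg, T2_dg α h0 h4 _ (fun p => mul_pos (ha p.1) (hb p.2)) _ hH]
  have h1 : ∑ p : ι × κ, ∑ q : ι × κ, ‖(E ⊗ₖ F) p q‖ ^ 2 *
      hk α (a p.1 * b p.2) (a q.1 * b q.2) =
      ∑ i, ∑ j, ‖E i j‖ ^ 2 * ∑ k, ∑ l, ‖F k l‖ ^ 2 * hk α (a i * b k) (a j * b l) := by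
    rw [Fintype.sum_prod_type]
    refine Finset.sum_congr rfl fun i _ => ?_
    have : ∀ k, ∑ q : ι × κ, ‖(E ⊗ₖ F) (i, k) q‖ ^ 2 * hk α (a i * b k) (a q.1 * b q.2) =
        ∑ j, ∑ l, ‖E i j‖ ^ 2 * (‖F k l‖ ^ 2 * hk α (a i * b k) (a j * b l)) := fun k => by
      rw [Fintype.sum_prod_type]
      refine Finset.sum_congr rfl fun j _ => Finset.sum_congr rfl fun l _ => ?_
      rw [kronecker_apply, norm_mul, mul_pow]
      ring
    simp only [this]
    rw [Finset.sum_comm]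
    refine Finset.sum_congr rfl fun j _ => ?_
    rw [Finset.mul_sum]
    refine Finset.sum_congr rfl fun k _ => ?_
    rw [Finset.mul_sum]
  refine h1.trans (Finset.sum_congr rfl fun i _ => Finset.sum_congr rfl fun j _ => ?_)
  congr 1
  have hsw : ∑ k, ∑ l, ‖F k l‖ ^ 2 * hk α (a i * b k) (a j * b l) =
      ∑ k, ∑ l, ‖F k l‖ ^ 2 * hk α (a i * b l) (a j * b k) := by
    rw [Finset.sum_comm]
    refine Finset.sum_congr rfl fun k _ => Finset.sum_congr rfl fun l _ => ?_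
    rw [norm_symm hF k l]
  have h3 : ∑ k, ∑ l, ‖F k l‖ ^ 2 *
      ((hk α (a i * b k) (a j * b l) + hk α (a i * b l) (a j * b k)) / 2) =
      (∑ k, ∑ l, ‖F k l‖ ^ 2 * hk α (a i * b k) (a j * b l) +
        ∑ k, ∑ l, ‖F k l‖ ^ 2 * hk α (a i * b l) (a j * b k)) / 2 := by
    rw [← Finset.sum_add_distrib, Finset.sum_div]
    refine Finset.sum_congr rfl fun k _ => ?_
    rw [← Finset.sum_add_distrib, Finset.sum_div]
    refine Finset.sum_congr rfl fun l _ => ?_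
    ring
  rw [h3, ← hsw]
  ring

theorem T2_prod_dg (α : ℝ) (h0 : 0 < α) (h4 : α < 4) (a : ι → ℝ) (ha : ∀ i, 0 < a i)
    (b : κ → ℝ) (hb : ∀ k, 0 < b k) (E : Matrix ι ι ℂ) (hE : E.IsHermitian) (F : Matrix κ κ ℂ)
    (hF : F.IsHermitian) :
    T2 α (dg a) E * T2 α (dg b) F = ∑ i, ∑ j, ‖E i j‖ ^ 2 * ∑ k, ∑ l, ‖F k l‖ ^ 2 *
      (hk α (a i) (a j) * hk α (b k) (b l)) := by
  rw [T2_dg α h0 h4 a ha E hE, T2_dg α h0 h4 b hb F hF, Finset.sum_mul]
  refine Finset.sum_congr rfl fun i _ => ?_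
  rw [Finset.sum_mul]
  refine Finset.sum_congr rfl fun j _ => ?_
  rw [mul_assoc, Finset.mul_sum]
  congr 1
  refine Finset.sum_congr rfl fun k _ => ?_
  rw [Finset.mul_sum]
  refine Finset.sum_congr rfl fun l _ => ?_
  ring

/-- diagonalisation of both factors -/
theorem T2_kron_diag (α : ℝ) (A₁ D₁ : Matrix ι ι ℂ)
    (A₂ D₂ : Matrix κ κ ℂ) (hA₁ : A₁.PosDef) (hD₁ : D₁.IsHermitian) (hA₂ : A₂.PosDef)
    (hD₂ : D₂.IsHermitian) : ∃ (a : ι → ℝ) (b : κ → ℝ) (E : Matrix ι ι ℂ) (F : Matrix κ κ ℂ),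
      (∀ i, 0 < a i) ∧ (∀ k, 0 < b k) ∧ E.IsHermitian ∧ F.IsHermitian ∧
      T2 α A₁ D₁ = T2 α (dg a) E ∧ T2 α A₂ D₂ = T2 α (dg b) F ∧
      T2 α (A₁ ⊗ₖ A₂) (D₁ ⊗ₖ D₂) = T2 α (dg a ⊗ₖ dg b) (E ⊗ₖ F) := by
  obtain ⟨U, a, E, hU, hU', ha, hA, hD, hE⟩ := exists_diag_pair A₁ D₁ hA₁
  obtain ⟨V, b, F, hV, hV', hb, hA2, hD2, hF⟩ := exists_diag_pair A₂ D₂ hA₂
  refine ⟨a, b, E, F, ha, hb, hE hD₁, hF hD₂, ?_, ?_, ?_⟩
  · rw [hA, hD, T2_conj α U _ _ hU hU']
  · rw [hA2, hD2, T2_conj α V _ _ hV hV']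
  · have hW : star (U ⊗ₖ V) * (U ⊗ₖ V) = 1 := by
      rw [star_eq_conjTranspose, conjTranspose_kronecker, ← mul_kronecker_mul,
        ← star_eq_conjTranspose, ← star_eq_conjTranspose, hU, hV, one_kronecker_one]
    have hW' : (U ⊗ₖ V) * star (U ⊗ₖ V) = 1 := by
      rw [star_eq_conjTranspose, conjTranspose_kronecker, ← mul_kronecker_mul,
        ← star_eq_conjTranspose, ← star_eq_conjTranspose, hU', hV', one_kronecker_one]
    have hk : ∀ (X : Matrix ι ι ℂ) (Y : Matrix κ κ ℂ),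
        (U * X * star U) ⊗ₖ (V * Y * star V) = (U ⊗ₖ V) * (X ⊗ₖ Y) * star (U ⊗ₖ V) := by
      intro X Y
      rw [mul_kronecker_mul, mul_kronecker_mul, star_eq_conjTranspose (U ⊗ₖ V),
        conjTranspose_kronecker, star_eq_conjTranspose, star_eq_conjTranspose]
    rw [hA, hD, hA2, hD2, hk, hk, T2_conj α _ _ _ hW hW']

/-- from `T2_dg`, `T2_conj`, `hk_ge`, symmetrising `‖E i j‖ = ‖E j i‖` -/
theorem T2_kron_ge (α : ℝ) (h3 : 3 ≤ α) (h4 : α < 4) (A₁ D₁ : Matrix ι ι ℂ)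
    (A₂ D₂ : Matrix κ κ ℂ) (hA₁ : A₁.PosDef) (hD₁ : D₁.IsHermitian) (hA₂ : A₂.PosDef)
    (hD₂ : D₂.IsHermitian) : T2 α A₁ D₁ * T2 α A₂ D₂ ≤ T2 α (A₁ ⊗ₖ A₂) (D₁ ⊗ₖ D₂) := by
  obtain ⟨a, b, E, F, ha, hb, hE, hF, e1, e2, e3⟩ := T2_kron_diag α A₁ D₁ A₂ D₂ hA₁ hD₁ hA₂ hD₂
  have h0 : 0 < α := by linarith
  rw [e1, e2, e3, T2_prod_dg α h0 h4 a ha b hb E hE F hF, T2_kron_dg α h0 h4 a ha b hb E hE F hF]
  refine Finset.sum_le_sum fun i _ => Finset.sum_le_sum fun j _ => ?_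
  refine mul_le_mul_of_nonneg_left ?_ (by positivity)
  refine Finset.sum_le_sum fun k _ => Finset.sum_le_sum fun l _ => ?_
  exact mul_le_mul_of_nonneg_left (hk_ge α _ _ _ _ h3 h4.le (ha i) (ha j) (hb k) (hb l))
    (by positivity)

theorem T2_kron_le (α : ℝ) (h2 : 2 ≤ α) (h3 : α ≤ 3) (A₁ D₁ : Matrix ι ι ℂ)
    (A₂ D₂ : Matrix κ κ ℂ) (hA₁ : A₁.PosDef) (hD₁ : D₁.IsHermitian) (hA₂ : A₂.PosDef)
    (hD₂ : D₂.IsHermitian) : T2 α (A₁ ⊗ₖ A₂) (D₁ ⊗ₖ D₂) ≤ T2 α A₁ D₁ * T2 α A₂ D₂ := by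
  obtain ⟨a, b, E, F, ha, hb, hE, hF, e1, e2, e3⟩ := T2_kron_diag α A₁ D₁ A₂ D₂ hA₁ hD₁ hA₂ hD₂
  have h0 : 0 < α := by linarith
  have h4 : α < 4 := by linarith
  rw [e1, e2, e3, T2_prod_dg α h0 h4 a ha b hb E hE F hF, T2_kron_dg α h0 h4 a ha b hb E hE F hF]
  refine Finset.sum_le_sum fun i _ => Finset.sum_le_sum fun j _ => ?_
  refine mul_le_mul_of_nonneg_left ?_ (by positivity)
  refine Finset.sum_le_sum fun k _ => Finset.sum_le_sum fun l _ => ?_
  exact mul_le_mul_of_nonneg_left (hk_le α _ _ _ _ h2 h3 (ha i) (ha j) (hb k) (hb l))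
    (by positivity)

end Pool.Agent.RC
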