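import Pool.Agent.Lib_helper95.RC.Defs24

/-!
# Block KER: the scalar kernel inequality for `hk`
-/

set_option autoImplicit false

open scoped BigOperators
open MeasureTheory Set

namespace Pool.Agent.RC.KER

/-- symmetrised value -/
noncomputable def S (g : ℝ → ℝ) (a b s : ℝ) : ℝ :=
  g (s * a + (1 - s) * b) + g ((1 - s) * a + s * b)

theorem comb_pos {a b s : ℝ} (ha : 0 < a) (hb : 0 < b) (hs : s ∈ Icc (0 : ℝ) 1) :
    0 < s * a + (1 - s) * b := by
  rcases eq_or_lt_of_le hs.1 with h | h
  · rw [← h]; simpa using hb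
  · have h1 : 0 < s * a := mul_pos h ha
    have h2 : 0 ≤ (1 - s) * b := mul_nonneg (by linarith [hs.2]) hb.le
    linarith

theorem one_sub_mem {s : ℝ} (hs : s ∈ Icc (0 : ℝ) 1) : 1 - s ∈ Icc (0 : ℝ) 1 :=
  ⟨by linarith [hs.2], by linarith [hs.1]⟩

theorem S_mono {g : ℝ → ℝ} (hg : ConvexOn ℝ (Ioi 0) g) {a b s t : ℝ} (ha : 0 < a) (hb : 0 < b)
    (hs : s ∈ Icc (0 : ℝ) 1) (ht : t ∈ Icc (0 : ℝ) 1) (h : |s - 1 / 2| ≤ |t - 1 / 2|) :
    S g a b s ≤ S g a b t := by
  by_cases h0 : t = 1 / 2
  · rw [h0] at h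
    have : s = 1 / 2 := by
      have h1 : |s - 1 / 2| ≤ 0 := by simpa using h
      have := abs_eq_zero.1 (le_antisymm h1 (abs_nonneg _))
      linarith
    rw [this, h0]
  have h2t : 2 * t - 1 ≠ 0 := fun h1 => h0 (by linarith)
  obtain ⟨θ, h1, h2, h3⟩ : ∃ θ : ℝ, 0 ≤ θ ∧ θ ≤ 1 ∧ s = θ * t + (1 - θ) * (1 - t) := by
    refine ⟨(s + t - 1) / (2 * t - 1), ?_, ?_, ?_⟩
    · rcases lt_or_gt_of_ne h0 with hlt | hgt
      · rw [abs_of_neg (by linarith : t - 1 / 2 < 0)] at h
        rw [abs_le] at h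
        exact div_nonneg_of_nonpos (by linarith [h.2]) (by linarith)
      · rw [abs_of_pos (by linarith : 0 < t - 1 / 2)] at h
        rw [abs_le] at h
        exact div_nonneg (by linarith [h.1]) (by linarith)
    · rcases lt_or_gt_of_ne h0 with hlt | hgt
      · rw [abs_of_neg (by linarith : t - 1 / 2 < 0)] at h
        rw [abs_le] at h
        rw [div_le_one_of_neg (by linarith)]
        linarith [h.1]
      · rw [abs_of_pos (by linarith : 0 < t - 1 / 2)] at h
        rw [abs_le] at h
        rw [div_le_one (by linarith)]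
        linarith [h.2]
    · have e : (s + t - 1) / (2 * t - 1) * (2 * t - 1) = s + t - 1 := div_mul_cancel₀ _ h2t
      linear_combination (-1 : ℝ) * e
  have p1 := comb_pos ha hb ht
  have p2 : 0 < (1 - t) * a + t * b := by
    have := comb_pos ha hb (one_sub_mem ht)
    rwa [sub_sub_cancel] at this
  have c1 := hg.2 (show _ ∈ Ioi (0 : ℝ) from p1) (show _ ∈ Ioi (0 : ℝ) from p2) h1
    (by linarith : (0 : ℝ) ≤ 1 - θ) (by ring)
  have c2 := hg.2 (show _ ∈ Ioi (0 : ℝ) from p1) (show _ ∈ Ioi (0 : ℝ) from p2)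
    (by linarith : (0 : ℝ) ≤ 1 - θ) h1 (by ring)
  simp only [smul_eq_mul] at c1 c2
  have e1 : s * a + (1 - s) * b =
      θ * (t * a + (1 - t) * b) + (1 - θ) * ((1 - t) * a + t * b) := by rw [h3]; ring
  have e2 : (1 - s) * a + s * b =
      (1 - θ) * (t * a + (1 - t) * b) + θ * ((1 - t) * a + t * b) := by rw [h3]; ring
  unfold S
  rw [e1, e2]
  linarith

theorem S_anti {g : ℝ → ℝ} (hg : ConcaveOn ℝ (Ioi 0) g) {a b s t : ℝ} (ha : 0 < a) (hb : 0 < b)
    (hs : s ∈ Icc (0 : ℝ) 1) (ht : t ∈ Icc (0 : ℝ) 1) (h : |s - 1 / 2| ≤ |t - 1 / 2|) :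
    S g a b t ≤ S g a b s := by
  have := S_mono hg.neg ha hb hs ht h
  simp only [S, Pi.neg_apply] at this ⊢
  linarith

/-- negative powers are convex -/
theorem convexOn_rpow_neg {q : ℝ} (hq : 0 ≤ q) :
    ConvexOn ℝ (Ioi 0) fun x : ℝ => x ^ (-q) := by
  have h1 : ConvexOn ℝ (Ioi (0 : ℝ)) (fun x => q * (-Real.log x)) := by
    have := (strictConcaveOn_log_Ioi.concaveOn.neg).smul hq
    simpa using this
  have h2 : ConvexOn ℝ ((fun x => q * (-Real.log x)) '' Ioi (0 : ℝ)) Real.exp :=
    convexOn_exp.subset (subset_univ _) (by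
      have : (fun x => q * (-Real.log x)) '' Ioi (0 : ℝ) =
          (fun x => q * (-Real.log x)) '' Ioi (0 : ℝ) := rfl
      by_cases h0 : q = 0
      · subst h0
        simp only [zero_mul]
        rw [(nonempty_Ioi (a := (0 : ℝ))).image_const]
        exact convex_singleton 0
      · have hu : (fun x => q * (-Real.log x)) '' Ioi (0 : ℝ) = univ := by
          refine eq_univ_of_forall fun y => ⟨Real.exp (-(y / q)), Real.exp_pos _, ?_⟩
          simp only [Real.log_exp, neg_neg]
          field_simp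
        rw [hu]
        exact convex_univ)
  have h3 := ConvexOn.comp h2 h1 (Real.exp_monotone.monotoneOn _)
  refine h3.congr fun x hx => ?_
  simp only [Function.comp]
  rw [Real.rpow_def_of_pos hx]
  congr 1
  ring

/-- Chebyshev's integral inequality on `[0,1]`. -/
theorem cheb_int {W F : ℝ → ℝ} (hW : ContinuousOn W (Icc 0 1)) (hF : ContinuousOn F (Icc 0 1))
    (h : ∀ s ∈ Icc (0 : ℝ) 1, ∀ t ∈ Icc (0 : ℝ) 1, 0 ≤ (W s - W t) * (F s - F t)) :
    (∫ s in (0 : ℝ)..1, W s) * (∫ s in (0 : ℝ)..1, F s) ≤ ∫ s in (0 : ℝ)..1, W s * F s := by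
  have hu : uIcc (0 : ℝ) 1 = Icc 0 1 := uIcc_of_le zero_le_one
  have iW : IntervalIntegrable W volume 0 1 := (hu ▸ hW).intervalIntegrable
  have iF : IntervalIntegrable F volume 0 1 := (hu ▸ hF).intervalIntegrable
  have iWF : IntervalIntegrable (fun s => W s * F s) volume 0 1 :=
    ContinuousOn.intervalIntegrable (by rw [hu]; exact hW.mul hF)
  set IW := ∫ s in (0 : ℝ)..1, W s with hIW
  set IF := ∫ s in (0 : ℝ)..1, F s with hIF
  set IWF := ∫ s in (0 : ℝ)..1, W s * F s with hIWF
  have step : ∀ t ∈ Icc (0 : ℝ) 1, F t * IW + W t * IF ≤ IWF + W t * F t := by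
    intro t ht
    have h1 : 0 ≤ ∫ s in (0 : ℝ)..1, (W s - W t) * (F s - F t) :=
      intervalIntegral.integral_nonneg zero_le_one fun s hs => h s hs t ht
    have h2 : ∫ s in (0 : ℝ)..1, (W s - W t) * (F s - F t) =
        IWF - F t * IW - W t * IF + W t * F t := by
      have e : (fun s => (W s - W t) * (F s - F t)) =
          fun s => W s * F s - F t * W s - W t * F s + W t * F t := by
        funext s; ring
      rw [e, intervalIntegral.integral_add, intervalIntegral.integral_sub, intervalIntegral.integral_sub, intervalIntegral.integral_const_mul, intervalIntegral.integral_const_mul,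
        intervalIntegral.integral_const]
      · simp [hIW, hIF, hIWF]
      · exact iWF
      · exact iW.const_mul _
      · exact iWF.sub (iW.const_mul _)
      · exact iF.const_mul _
      · exact (iWF.sub (iW.const_mul _)).sub (iF.const_mul _)
      · exact intervalIntegrable_const
    linarith
  have h3 : ∫ t in (0 : ℝ)..1, (F t * IW + W t * IF) ≤ ∫ t in (0 : ℝ)..1, (IWF + W t * F t) :=
    intervalIntegral.integral_mono_on zero_le_one ((iF.mul_const _).add (iW.mul_const _))
      (intervalIntegrable_const.add iWF) step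
  rw [intervalIntegral.integral_add (iF.mul_const _) (iW.mul_const _), intervalIntegral.integral_add intervalIntegrable_const iWF,
    intervalIntegral.integral_mul_const, intervalIntegral.integral_mul_const, intervalIntegral.integral_const] at h3
  simp only [sub_zero, one_smul, ← hIW, ← hIF, ← hIWF] at h3
  linarith

/-- The substitution `λ = t a / (t a + (1 - t) b)`. -/
theorem subst {p a b : ℝ} (ha : 0 < a) (hb : 0 < b) {F : ℝ → ℝ} (hF : ContinuousOn F (Icc 0 1)) :
    ∫ t in (0 : ℝ)..1, (t * a + (1 - t) * b) ^ p * F (t * a / (t * a + (1 - t) * b)) =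
      ∫ l in (0 : ℝ)..1, (a * b) ^ (p + 1) * (l * b + (1 - l) * a) ^ (-(p + 2)) * F l := by
  set f : ℝ → ℝ := fun t => t * a / (t * a + (1 - t) * b) with hf
  set f' : ℝ → ℝ := fun t => a * b / (t * a + (1 - t) * b) ^ 2 with hf'
  set g : ℝ → ℝ := fun l => (a * b) ^ (p + 1) * (l * b + (1 - l) * a) ^ (-(p + 2)) * F l with hg
  have hu : uIcc (0 : ℝ) 1 = Icc 0 1 := uIcc_of_le zero_le_one
  have hder : ∀ x ∈ uIcc (0 : ℝ) 1, HasDerivAt f (f' x) x := by
    intro x hx
    rw [hu] at hx
    have hpos := comb_pos ha hb hx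
    have h1 : HasDerivAt (fun t : ℝ => t * a) a x := by
      simpa using (hasDerivAt_id x).mul_const a
    have h2 : HasDerivAt (fun t : ℝ => t * a + (1 - t) * b) (a - b) x := by
      have h3 : HasDerivAt (fun t : ℝ => (1 - t) * b) (-b) x := by
        simpa using ((hasDerivAt_const x (1 : ℝ)).sub (hasDerivAt_id x)).mul_const b
      have h5 := h1.add h3
      rw [← sub_eq_add_neg] at h5
      exact h5
    have h4 := h1.div h2 hpos.ne'
    have e : (a * (x * a + (1 - x) * b) - x * a * (a - b)) / (x * a + (1 - x) * b) ^ 2 = f' x := by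
      rw [hf']
      congr 1
      ring
    rw [← e]
    exact h4
  have hcont' : ContinuousOn f' (uIcc (0 : ℝ) 1) := by
    rw [hu]
    refine ContinuousOn.div continuousOn_const (by fun_prop) fun t ht => ?_
    exact (pow_pos (comb_pos ha hb ht) 2).ne'
  have himg : f '' uIcc (0 : ℝ) 1 ⊆ Icc 0 1 := by
    rintro _ ⟨t, ht, rfl⟩
    rw [hu] at ht
    have hpos := comb_pos ha hb ht
    refine ⟨div_nonneg (mul_nonneg ht.1 ha.le) hpos.le, ?_⟩
    rw [hf]
    simp only
    rw [div_le_one hpos]
    have := mul_nonneg (sub_nonneg.2 ht.2) hb.le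
    linarith
  have hgc : ContinuousOn g (Icc 0 1) := by
    refine ContinuousOn.mul (ContinuousOn.mul continuousOn_const ?_) hF
    refine ContinuousOn.rpow_const (by fun_prop) fun l hl => Or.inl ?_
    exact (comb_pos hb ha hl).ne'
  have hmain := intervalIntegral.integral_comp_mul_deriv' hder hcont' (hgc.mono himg)
  have h0 : f 0 = 0 := by simp [hf]
  have h1 : f 1 = 1 := by
    simp [hf, ha.ne']
  rw [h0, h1] at hmain
  rw [← hmain]
  refine intervalIntegral.integral_congr fun t ht => ?_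
  rw [hu] at ht
  have hpos := comb_pos ha hb ht
  simp only [Function.comp, hg, hf, hf']
  set u := t * a + (1 - t) * b with hudef
  have hl : t * a / u * b + (1 - t * a / u) * a = a * b / u := by
    field_simp
    rw [hudef]
    ring
  rw [hl]
  have hab : 0 < a * b := mul_pos ha hb
  have e1 : (a * b / u) ^ (-(p + 2)) = (a * b) ^ (-(p + 2)) * u ^ (p + 2) := by
    rw [Real.div_rpow hab.le hpos.le, Real.rpow_neg hpos.le, Real.rpow_neg hab.le]
    field_simp
  have e2 : (a * b) ^ (p + 1) * (a * b) ^ (-(p + 2)) = (a * b)⁻¹ := by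
    rw [← Real.rpow_add hab, show p + 1 + -(p + 2) = -1 by ring, Real.rpow_neg_one]
  have e3 : u ^ (p + 2) = u ^ p * u ^ 2 := by
    rw [Real.rpow_add hpos]
    norm_num
  rw [e1, e3]
  calc u ^ p * F (t * a / u)
      = ((a * b) ^ (p + 1) * (a * b) ^ (-(p + 2))) * (a * b) * (u ^ 2 / u ^ 2) *
          (u ^ p * F (t * a / u)) := by
        rw [e2, inv_mul_cancel₀ hab.ne', div_self (pow_pos hpos 2).ne']
        ring
    _ = _ := by ring

theorem reflect (F : ℝ → ℝ) : ∫ s in (0 : ℝ)..1, F (1 - s) = ∫ s in (0 : ℝ)..1, F s := by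
  simp

theorem hk_symm (α c d : ℝ) : hk α d c = hk α c d := by
  unfold hk
  rw [← reflect]
  congr 1
  funext t
  congr 1
  ring

/-- The common computation: `LHS = ∫ w F`, `RHS = ∫ w · ∫ F`. -/
theorem setup (α a b c d : ℝ) (ha : 0 < a) (hb : 0 < b) (hc : 0 < c) (hd : 0 < d) :
    ∃ W F : ℝ → ℝ, ContinuousOn W (Icc 0 1) ∧ ContinuousOn F (Icc 0 1) ∧
      (∀ l, W l = S (fun x => x ^ (-α)) b a l) ∧
      (∀ l, F l = S (fun x => x ^ (α - 2)) c d l) ∧
      (hk α (a * c) (b * d) + hk α (a * d) (b * c)) / 2 =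
        (a * b) ^ (α - 1) / 4 * ∫ l in (0 : ℝ)..1, W l * F l ∧
      hk α a b * hk α c d =
        (a * b) ^ (α - 1) / 4 * ((∫ l in (0 : ℝ)..1, W l) * (∫ l in (0 : ℝ)..1, F l)) := by
  have hcomb : ∀ {x y : ℝ}, 0 < x → 0 < y → ∀ q : ℝ,
      ContinuousOn (fun l : ℝ => (l * x + (1 - l) * y) ^ q) (Icc 0 1) := fun hx hy q =>
    ContinuousOn.rpow_const (by fun_prop) fun l hl => Or.inl (comb_pos hx hy hl).ne'
  have hcomb' : ∀ {x y : ℝ}, 0 < x → 0 < y → ∀ q : ℝ,
      ContinuousOn (fun l : ℝ => ((1 - l) * x + l * y) ^ q) (Icc 0 1) := fun hx hy q =>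
    ContinuousOn.rpow_const (by fun_prop) fun l hl => Or.inl (by
      have := comb_pos hy hx hl
      rw [add_comm] at this
      exact this.ne')
  set w : ℝ → ℝ := fun l => (l * b + (1 - l) * a) ^ (-α) with hw
  set F : ℝ → ℝ := fun l => S (fun x => x ^ (α - 2)) c d l with hFdef
  set W : ℝ → ℝ := fun l => S (fun x => x ^ (-α)) b a l with hWdef
  have hFc : ContinuousOn F (Icc 0 1) := (hcomb hc hd _).add (hcomb' hc hd _)
  have hWc : ContinuousOn W (Icc 0 1) := (hcomb hb ha _).add (hcomb' hb ha _)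
  have hwc : ContinuousOn w (Icc 0 1) := hcomb hb ha _
  have hu : uIcc (0 : ℝ) 1 = Icc 0 1 := uIcc_of_le zero_le_one
  have hFs : ∀ l, F (1 - l) = F l := fun l => by
    simp only [hFdef, S]
    rw [sub_sub_cancel, add_comm]
  have hWw : ∀ l, W l = w l + w (1 - l) := fun l => by
    simp only [hWdef, hw, S]
    rw [sub_sub_cancel]
  have hwc' : ContinuousOn (fun l => w (1 - l)) (Icc 0 1) := by
    have : (fun l => w (1 - l)) = fun l => W l - w l := by
      funext l; rw [hWw]; ring
    rw [this]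
    exact hWc.sub hwc
  have i1 : IntervalIntegrable w volume 0 1 := (hu ▸ hwc).intervalIntegrable
  have i2 : IntervalIntegrable (fun l => w (1 - l)) volume 0 1 := (hu ▸ hwc').intervalIntegrable
  have i3 : IntervalIntegrable (fun l => w l * F l) volume 0 1 :=
    ContinuousOn.intervalIntegrable (by rw [hu]; exact hwc.mul hFc)
  have i4 : IntervalIntegrable (fun l => w (1 - l) * F l) volume 0 1 :=
    ContinuousOn.intervalIntegrable (by rw [hu]; exact hwc'.mul hFc)
  have hIW : ∫ l in (0 : ℝ)..1, W l = 2 * ∫ l in (0 : ℝ)..1, w l := by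
    simp_rw [hWw]
    rw [intervalIntegral.integral_add i1 i2, reflect]
    ring
  have hIWF : ∫ l in (0 : ℝ)..1, W l * F l = 2 * ∫ l in (0 : ℝ)..1, w l * F l := by
    have e : (fun l => W l * F l) = fun l => w l * F l + w (1 - l) * F l := by
      funext l; rw [hWw]; ring
    rw [e, intervalIntegral.integral_add i3 i4]
    have e2 : ∫ l in (0 : ℝ)..1, w (1 - l) * F l = ∫ l in (0 : ℝ)..1, w l * F l := by
      rw [← reflect (fun l => w l * F l)]
      refine intervalIntegral.integral_congr fun l _ => ?_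
      simp only [hFs]
    rw [e2]
    ring
  have hIF : ∫ l in (0 : ℝ)..1, F l = 2 * hk α c d := by
    have e : (fun l => F l) = fun l => (l * c + (1 - l) * d) ^ (α - 2) +
        (l * d + (1 - l) * c) ^ (α - 2) := by
      funext l
      simp only [hFdef, S]
      rw [add_comm ((1 - l) * c) (l * d)]
    rw [e, intervalIntegral.integral_add]
    · change hk α c d + hk α d c = _
      rw [hk_symm]
      ring
    · exact (hu ▸ hcomb hc hd _).intervalIntegrable
    · exact (hu ▸ hcomb hd hc _).intervalIntegrable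
  have hα : α - 2 + 1 = α - 1 := by ring
  have hα' : -(α - 2 + 2) = -α := by ring
  refine ⟨W, F, hWc, hFc, fun l => rfl, fun l => rfl, ?_, ?_⟩
  · have h1 : (hk α (a * c) (b * d) + hk α (a * d) (b * c)) / 2 =
        (1 / 2) * ∫ t in (0 : ℝ)..1, (t * a + (1 - t) * b) ^ (α - 2) *
          F (t * a / (t * a + (1 - t) * b)) := by
      unfold hk
      have j : ∀ {x y : ℝ}, 0 < x → 0 < y → IntervalIntegrable
          (fun t : ℝ => (t * x + (1 - t) * y) ^ (α - 2)) volume 0 1 := fun hx hy =>
        (hu ▸ hcomb hx hy _).intervalIntegrable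
      rw [← intervalIntegral.integral_add (j (mul_pos ha hc) (mul_pos hb hd)) (j (mul_pos ha hd) (mul_pos hb hc)),
        div_eq_inv_mul, ← one_div]
      congr 1
      refine intervalIntegral.integral_congr fun t ht => ?_
      rw [hu] at ht
      have hpos := comb_pos ha hb ht
      simp only [hFdef, S]
      set u := t * a + (1 - t) * b with hudef
      have hu0 : u ≠ 0 := hpos.ne'
      have g1 : 0 ≤ t * a / u * c + (1 - t * a / u) * d := by
        have k1 : t * a / u ∈ Icc (0 : ℝ) 1 := ⟨div_nonneg (mul_nonneg ht.1 ha.le) hpos.le, by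
          rw [div_le_one hpos, hudef]
          have := mul_nonneg (sub_nonneg.2 ht.2) hb.le
          linarith⟩
        exact (comb_pos hc hd k1).le
      have g2 : 0 ≤ (1 - t * a / u) * c + t * a / u * d := by
        have k1 : t * a / u ∈ Icc (0 : ℝ) 1 := ⟨div_nonneg (mul_nonneg ht.1 ha.le) hpos.le, by
          rw [div_le_one hpos, hudef]
          have := mul_nonneg (sub_nonneg.2 ht.2) hb.le
          linarith⟩
        have := comb_pos hd hc k1
        linarith
      rw [mul_add, ← Real.mul_rpow hpos.le g1, ← Real.mul_rpow hpos.le g2]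
      congr 2
      · field_simp
        rw [hudef]
        ring
      · field_simp
        rw [hudef]
        ring
    rw [h1, subst ha hb hFc, hIWF, hα, hα']
    have e : (fun l => (a * b) ^ (α - 1) * (l * b + (1 - l) * a) ^ (-α) * F l) =
        fun l => (a * b) ^ (α - 1) * (w l * F l) := by
      funext l; rw [hw]; ring
    rw [e, intervalIntegral.integral_const_mul]
    ring
  · have h1 : hk α a b = (a * b) ^ (α - 1) * ∫ l in (0 : ℝ)..1, w l := by
      have := subst (p := α - 2) ha hb (F := fun _ => 1) continuousOn_const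
      simp only [mul_one] at this
      rw [hα, hα', intervalIntegral.integral_const_mul] at this
      exact this
    rw [h1, hIW, hIF]
    ring

end Pool.Agent.RC.KER

namespace Pool.Agent.RC

open KER

theorem hk_ge (α a b c d : ℝ) (h3 : 3 ≤ α) (h4 : α ≤ 4) (ha : 0 < a) (hb : 0 < b) (hc : 0 < c)
    (hd : 0 < d) : hk α a b * hk α c d ≤ (hk α (a * c) (b * d) + hk α (a * d) (b * c)) / 2 := by
  obtain ⟨W, F, hW, hF, hW', hF', e1, e2⟩ := setup α a b c d ha hb hc hd
  rw [e1, e2]
  refine mul_le_mul_of_nonneg_left (cheb_int hW hF fun s hs t ht => ?_)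
    (div_nonneg (Real.rpow_nonneg (mul_pos ha hb).le _) (by norm_num))
  rw [hW', hW', hF', hF']
  have cW : ConvexOn ℝ (Ioi 0) fun x : ℝ => x ^ (-α) := convexOn_rpow_neg (by linarith)
  have cF : ConvexOn ℝ (Ioi 0) fun x : ℝ => x ^ (α - 2) :=
    (convexOn_rpow (by linarith)).subset Ioi_subset_Ici_self (convex_Ioi 0)
  rcases le_total |s - 1 / 2| |t - 1 / 2| with h | h
  · have a1 := S_mono cW hb ha hs ht h
    have a2 := S_mono cF hc hd hs ht h
    exact mul_nonneg_of_nonpos_of_nonpos (by linarith) (by linarith)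
  · have a1 := S_mono cW hb ha ht hs h
    have a2 := S_mono cF hc hd ht hs h
    exact mul_nonneg (by linarith) (by linarith)

theorem hk_le (α a b c d : ℝ) (h2 : 2 ≤ α) (h3 : α ≤ 3) (ha : 0 < a) (hb : 0 < b) (hc : 0 < c)
    (hd : 0 < d) : (hk α (a * c) (b * d) + hk α (a * d) (b * c)) / 2 ≤ hk α a b * hk α c d := by
  obtain ⟨W, F, hW, hF, hW', hF', e1, e2⟩ := setup α a b c d ha hb hc hd
  rw [e1, e2]
  refine mul_le_mul_of_nonneg_left ?_
    (div_nonneg (Real.rpow_nonneg (mul_pos ha hb).le _) (by norm_num))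
  have cW : ConvexOn ℝ (Ioi 0) fun x : ℝ => x ^ (-α) := convexOn_rpow_neg (by linarith)
  have cF : ConcaveOn ℝ (Ioi 0) fun x : ℝ => x ^ (α - 2) :=
    (Real.concaveOn_rpow (by linarith) (by linarith)).subset Ioi_subset_Ici_self (convex_Ioi 0)
  have h := cheb_int hW hF.neg (fun s hs t ht => by
    rw [hW', hW']
    simp only [Pi.neg_apply]
    rw [hF', hF']
    rcases le_total |s - 1 / 2| |t - 1 / 2| with h | h
    · have a1 := S_mono cW hb ha hs ht h
      have a2 := S_anti cF hc hd hs ht h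
      exact mul_nonneg_of_nonpos_of_nonpos (by linarith) (by linarith)
    · have a1 := S_mono cW hb ha ht hs h
      have a2 := S_anti cF hc hd ht hs h
      exact mul_nonneg (by linarith) (by linarith))
  simp only [Pi.neg_apply, intervalIntegral.integral_neg, mul_neg] at h
  linarith

end Pool.Agent.RC
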